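import Pool.Agent.Q154.EM.Box

/-! # Project EM (helper54): box check BXC (helper154) -/

set_option autoImplicit false

namespace Pool.Agent.Q154.EM

open Pool.Agent.Q54.EM

/-- the checker -/
def chkC : Tr → ℚ → ℚ → ℚ → ℚ → Bool
  | .s, q1, _, _, t2 => decide (15456 / 100000 < q1 * (1 - t2))
  | .l n, q1, q2, t1, t2 => okE q1 q2 t1 t2 (n / 1000) && decide (dd q1 q2 t2 (n / 1000) < 0)
  | .q a b, q1, q2, t1, t2 => chkC a q1 ((q1 + q2) / 2) t1 t2 && chkC b ((q1 + q2) / 2) q2 t1 t2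
  | .t a b, q1, q2, t1, t2 => chkC a q1 q2 t1 ((t1 + t2) / 2) && chkC b q1 q2 ((t1 + t2) / 2) t2

theorem chkC_sound (T : Tr) : ∀ (q1 q2 t1 t2 : ℚ), chkC T q1 q2 t1 t2 = true → 0 ≤ q1 →
    q2 ≤ 37 / 100 → 0 ≤ t1 → t2 ≤ 1 → ∀ q t c e : ℝ, (q1 : ℝ) ≤ q → q ≤ q2 → (t1 : ℝ) ≤ t →
    t ≤ t2 → 0 < q → q * (1 - t) ≤ 15456 / 100000 → 458 / 1000 + 88 / 1000 * (q * (1 - t)) ≤ c →
    c ≤ 4724 / 10000 → 0 ≤ e → e ≤ 2 / 10 →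
    (1 - q) * q * (t + e) ^ 2 ≤ (1 - c * (q * (1 - t))) * e *
      (q * (1 + e) * (1 - c * (1 - c * (q * (1 - t)) - q * (1 - t))) + (1 - c * (q * (1 - t))) -
        2 * (q * (1 - t))) →
    Dp q t c e < 0 := by
  induction T with
  | s =>
    intro q1 q2 t1 t2 h hq1 hq2 ht1 ht2 q t c e hqq1 hqq2 htt1 htt2 hq ha2
    exfalso
    rw [chkC, decide_eq_true_eq] at h
    have r1 : (0 : ℝ) ≤ q1 := by exact_mod_cast hq1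
    have r4 : (t2 : ℝ) ≤ 1 := by exact_mod_cast ht2
    have h' : (15456 / 100000 : ℝ) < q1 * (1 - t2) := by
      have := (Rat.cast_lt (K := ℝ)).2 h
      push_cast at this
      exact this
    have hka : (q1 : ℝ) * (1 - t2) ≤ q * (1 - t) :=
      mul_le_mul hqq1 (by linarith) (by linarith) hq.le
    linarith
  | q a b iha ihb =>
    intro q1 q2 t1 t2 h hq1 hq2 ht1 ht2 q t c e hqq1 hqq2 htt1 htt2
    rw [chkC, Bool.and_eq_true] at h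
    have hqr : (q1 : ℝ) ≤ q2 := hqq1.trans hqq2
    have hqr' : q1 ≤ q2 := by exact_mod_cast hqr
    rcases le_total q (((q1 + q2) / 2 : ℚ) : ℝ) with hm | hm
    · exact iha q1 ((q1 + q2) / 2) t1 t2 h.1 hq1 (by linarith) ht1 ht2 q t c e hqq1 hm htt1 htt2
    · exact ihb ((q1 + q2) / 2) q2 t1 t2 h.2 (by linarith) hq2 ht1 ht2 q t c e hm hqq2 htt1 htt2
  | t a b iha ihb =>
    intro q1 q2 t1 t2 h hq1 hq2 ht1 ht2 q t c e hqq1 hqq2 htt1 htt2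
    rw [chkC, Bool.and_eq_true] at h
    have htr : (t1 : ℝ) ≤ t2 := htt1.trans htt2
    have htr' : t1 ≤ t2 := by exact_mod_cast htr
    rcases le_total t (((t1 + t2) / 2 : ℚ) : ℝ) with hm | hm
    · exact iha q1 q2 t1 ((t1 + t2) / 2) h.1 hq1 hq2 ht1 (by linarith) q t c e hqq1 hqq2 htt1 hm
    · exact ihb q1 q2 ((t1 + t2) / 2) t2 h.2 hq1 hq2 (by linarith) ht2 q t c e hqq1 hqq2 hm htt2
  | l n =>
    intro q1 q2 t1 t2 h hq1 hq2 ht1 ht2 q t c e hqq1 hqq2 htt1 htt2 hq ha2 hc1 hc2 he0 he2 hi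
    rw [chkC, Bool.and_eq_true, decide_eq_true_eq] at h
    obtain ⟨h1, h3⟩ := h
    obtain ⟨e1, he1⟩ : ∃ e1 : ℚ, e1 = n / 1000 := ⟨_, rfl⟩
    rw [← he1] at h1 h3
    have he10 : (0 : ℚ) ≤ e1 := by rw [he1]; positivity
    obtain ⟨k1, k2⟩ := okE_real h1
    have r1 : (0 : ℝ) ≤ q1 := by exact_mod_cast hq1
    have r2 : (q2 : ℝ) ≤ 37 / 100 := by
      have := (Rat.cast_le (K := ℝ)).2 hq2
      push_cast at this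
      exact this
    have r3 : (0 : ℝ) ≤ t1 := by exact_mod_cast ht1
    have r4 : (t2 : ℝ) ≤ 1 := by exact_mod_cast ht2
    have r5 : (0 : ℝ) ≤ e1 := by exact_mod_cast he10
    have r7 : dd (q1 : ℝ) q2 t2 e1 < 0 := by
      rw [← cast_dd]
      exact_mod_cast h3
    have ha0 : 0 ≤ q * (1 - t) := mul_nonneg hq.le (by linarith)
    have hge : q * (e1 : ℝ) ≤ e :=
      case_i (q1 := q1) (q2 := q2) (t1 := t1) (t2 := t2) hq r1 hqq1 hqq2 (by linarith)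
        r3 htt1 htt2 r4 ha2 hc1 hc2 he0 he2 hi k1 k2
    have hka : (q1 : ℝ) * (1 - t2) ≤ q * (1 - t) :=
      mul_le_mul hqq1 (by linarith) (by linarith) hq.le
    have d1 : Dp q t c e ≤ q * dd (q1 : ℝ) q2 t2 e1 :=
      Dp_le hq r1 hqq1 hqq2 (by linarith) (by linarith) htt2 r4
        (by unfold cc; linarith) hc2 r5 hge
    have d3 := mul_neg_of_pos_of_neg hq r7
    linarith

/-- the tree of boxes -/
def treeC : Tr :=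
  (Tr.t (Tr.t (Tr.q (Tr.t (Tr.q (Tr.t (Tr.q (Tr.t (Tr.q (Tr.t (Tr.q (Tr.t Tr.s (Tr.q (Tr.t (Tr.l
  288) (Tr.l 290)) (Tr.t Tr.s (Tr.l 290)))) Tr.s) (Tr.q (Tr.t (Tr.q (Tr.l 292) (Tr.l 292)) (Tr.l
  295)) (Tr.t (Tr.q (Tr.l 292) (Tr.l 292)) (Tr.l 295)))) (Tr.t Tr.s (Tr.q (Tr.t Tr.s (Tr.l 295))
  (Tr.t Tr.s (Tr.l 296))))) (Tr.q (Tr.t (Tr.q (Tr.t (Tr.l 299) (Tr.l 303)) (Tr.l 298)) (Tr.q
  (Tr.l 306) (Tr.l 306))) (Tr.t (Tr.q (Tr.l 298) (Tr.l 298)) (Tr.l 304)))) (Tr.t Tr.s (Tr.q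
  (Tr.t (Tr.q (Tr.l 298) (Tr.l 299)) (Tr.l 305)) (Tr.t Tr.s (Tr.l 305))))) (Tr.q (Tr.t (Tr.q
  (Tr.t (Tr.l 313) (Tr.l 321)) (Tr.t (Tr.l 313) (Tr.l 322))) (Tr.q (Tr.l 327) (Tr.l 327))) (Tr.t
  (Tr.q (Tr.t (Tr.l 313) (Tr.l 322)) (Tr.t (Tr.l 314) (Tr.l 323))) (Tr.q (Tr.l 327) (Tr.l
  328))))) (Tr.t Tr.s (Tr.q (Tr.t (Tr.q (Tr.l 310) (Tr.l 311)) (Tr.l 323)) (Tr.t (Tr.q (Tr.l
  311) Tr.s) (Tr.l 323))))) (Tr.q (Tr.t (Tr.q (Tr.t (Tr.l 340) (Tr.l 358)) (Tr.t (Tr.l 340)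
  (Tr.l 358))) (Tr.q (Tr.l 368) (Tr.l 368))) (Tr.t (Tr.q (Tr.t (Tr.l 340) (Tr.l 358)) (Tr.t
  (Tr.l 340) (Tr.l 358))) (Tr.q (Tr.l 367) (Tr.l 367))))) (Tr.t (Tr.q (Tr.t Tr.s (Tr.q (Tr.t
  Tr.s (Tr.l 323)) Tr.s)) Tr.s) (Tr.q (Tr.t (Tr.q (Tr.t (Tr.l 340) (Tr.l 358)) (Tr.t (Tr.l 340)
  (Tr.l 357))) (Tr.q (Tr.l 366) (Tr.l 365))) (Tr.t (Tr.q (Tr.t Tr.s (Tr.l 357)) (Tr.t Tr.s (Tr.l
  356))) (Tr.q (Tr.l 365) (Tr.l 363)))))) (Tr.q (Tr.t (Tr.q (Tr.t (Tr.l 393) (Tr.l 430)) (Tr.t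
  (Tr.l 391) (Tr.l 427))) (Tr.q (Tr.l 449) (Tr.l 444))) (Tr.t (Tr.q (Tr.t (Tr.l 389) (Tr.l 424))
  (Tr.t (Tr.l 386) (Tr.l 420))) (Tr.q (Tr.l 439) (Tr.l 433))))) (Tr.t (Tr.q (Tr.t (Tr.q (Tr.l
  524) (Tr.l 517)) (Tr.l 569)) (Tr.t (Tr.q (Tr.l 510) (Tr.l 501)) (Tr.l 548))) (Tr.q (Tr.l 602)
  (Tr.t (Tr.l 618) (Tr.l 689)))))

theorem chkC_tree : chkC treeC (3 / 10) (37 / 100) (48 / 100) 1 = true := by decide +kernel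

theorem bxc : S_BXC := by
  intro q t c e hq1 hq2 ht ht1 ha hc1 hc2 he0 he2 hi
  refine chkC_sound treeC (3 / 10) (37 / 100) (48 / 100) 1 chkC_tree (by norm_num) (by norm_num)
    (by norm_num) (by norm_num) q t c e ?_ ?_ ?_ ?_ (by linarith) ha hc1 hc2 he0 he2 hi
  · push_cast; exact hq1
  · push_cast; exact hq2
  · push_cast; exact ht
  · push_cast; exact ht1.le

end Pool.Agent.Q154.EM
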