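import Pool.Agent.Q54.EM.StmN

/-! # Project EM (helper54): common part of the box checks BXB and BXC (helper154) -/

set_option autoImplicit false

namespace Pool.Agent.Q154.EM

open Pool.Agent.Q54.EM

/-- trees of boxes -/
inductive Tr where
  | s : Tr
  | l : ℕ → Tr
  | q : Tr → Tr → Tr
  | t : Tr → Tr → Tr

section generic

variable {K : Type} [Field K]

/-- lower bound of the constant `c` on a box -/
def cc (q1 t2 : K) : K := 458 / 1000 + 88 / 1000 * (q1 * (1 - t2))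

/-- upper bound of the bracket on a box -/
def bb (q1 q2 t2 : K) : K :=
  12 / 10 * q2 * (1 - cc q1 t2 + cc q1 t2 * (q1 * (1 - t2)) * (1 + cc q1 t2)) + 1 -
    (cc q1 t2 + 2) * (q1 * (1 - t2))

/-- upper bound of the product -/
def aa (q1 q2 t2 : K) : K := (1 - cc q1 t2 * (q1 * (1 - t2))) * bb q1 q2 t2

/-- upper bound for `Dp / q` -/
def dd (q1 q2 t2 e1 : K) : K :=
  (1 / 2 - cc q1 t2) * t2 + (1 / 3 - cc q1 t2 / 2) * (q2 * (1 - (1 - t2) * (1 - t2))) +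
    (1 / 4 - cc q1 t2 / 3) * (q2 * q2 * (1 - (1 - t2) * (1 - t2) * (1 - t2))) +
    (1 / 5 - cc q1 t2 / 4) * (q2 * q2 * q2 * (1 - (1 - t2) * (1 - t2) * (1 - t2) * (1 - t2))) +
    q2 * q2 * q2 * q2 / (6 * (1 - q2)) - cc q1 t2 * e1 * q1 * (1 + q1 / 2)

/-- lower bound for `Gp / q` -/
def gg (q2 e1 : K) : K :=
  (1 - q2) * (1 - 567 / 1000 * q2) * e1 * (e1 / (36 / 10 * e1 + 1)) / 2 *
    ((1 - 567 / 1000 * q2) * (1 - 4 / 10 * (e1 / (36 / 10 * e1 + 1))) - q2)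

end generic

theorem cast_cc (q1 t2 : ℚ) : ((cc q1 t2 : ℚ) : ℝ) = cc (q1 : ℝ) (t2 : ℝ) := by
  unfold cc; push_cast; rfl

theorem cast_bb (q1 q2 t2 : ℚ) : ((bb q1 q2 t2 : ℚ) : ℝ) = bb (q1 : ℝ) (q2 : ℝ) (t2 : ℝ) := by
  unfold bb; push_cast; rw [cast_cc]

theorem cast_aa (q1 q2 t2 : ℚ) : ((aa q1 q2 t2 : ℚ) : ℝ) = aa (q1 : ℝ) (q2 : ℝ) (t2 : ℝ) := by
  unfold aa; push_cast; rw [cast_cc, cast_bb]

theorem cast_dd (q1 q2 t2 e1 : ℚ) :
    ((dd q1 q2 t2 e1 : ℚ) : ℝ) = dd (q1 : ℝ) (q2 : ℝ) (t2 : ℝ) (e1 : ℝ) := by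
  unfold dd; push_cast; rw [cast_cc]

theorem cast_gg (q2 e1 : ℚ) : ((gg q2 e1 : ℚ) : ℝ) = gg (q2 : ℝ) (e1 : ℝ) := by
  unfold gg; push_cast; rfl

/-- the bracket -/
theorem brk_le {Q a c Q2 c1 k1 : ℝ} (hQ : Q ≤ Q2) (hQ0 : 0 ≤ Q) (hk1 : 0 ≤ k1)
    (ha : k1 ≤ a) (ha2 : a ≤ 15456 / 100000) (hc1 : 458 / 1000 ≤ c1) (hc : c1 ≤ c)
    (hc2 : c ≤ 4724 / 10000) (hQ2 : Q2 ≤ 45 / 100) :
    Q * (1 - c * (1 - c * a - a)) + (1 - c * a) - 2 * a ≤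
      Q2 * (1 - c1 + c1 * k1 * (1 + c1)) + 1 - (c1 + 2) * k1 := by
  have ha0 : 0 ≤ a := hk1.trans ha
  have hc0 : 0 ≤ c := by linarith
  have hQ20 : 0 ≤ Q2 := hQ0.trans hQ
  have h0 : 0 ≤ 1 - c * (1 - c * a - a) := by
    have h1 : c * (1 - c * a - a) ≤ c * 1 := by
      refine mul_le_mul_of_nonneg_left ?_ hc0
      have := mul_nonneg hc0 ha0
      linarith
    linarith
  have h1 : Q * (1 - c * (1 - c * a - a)) ≤ Q2 * (1 - c * (1 - c * a - a)) :=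
    mul_le_mul_of_nonneg_right hQ h0
  have h2 : 0 ≤ (c - c1) * (Q2 * (1 - a - a * (c + c1)) + a) := by
    refine mul_nonneg (by linarith) (add_nonneg (mul_nonneg hQ20 ?_) ha0)
    have h3 : a * (c + c1) ≤ a * 1 := mul_le_mul_of_nonneg_left (by linarith) ha0
    linarith
  have h3 : 0 ≤ (a - k1) * ((c1 + 2) - Q2 * (c1 * (1 + c1))) := by
    refine mul_nonneg (by linarith) ?_
    have h4 : c1 * (1 + c1) ≤ 1 * 2 := by
      refine mul_le_mul (by linarith) (by linarith) (by linarith) (by norm_num)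
    have h5 : Q2 * (c1 * (1 + c1)) ≤ 45 / 100 * 2 := by
      refine mul_le_mul hQ2 (by linarith) (mul_nonneg (by linarith) (by linarith)) (by norm_num)
    linarith
  nlinarith

/-- the product -/
theorem prod_le {q e a c c1 k1 q2 : ℝ} (hq : 0 ≤ q) (hq2 : q ≤ q2) (hq3 : q2 ≤ 37 / 100)
    (he : 0 ≤ e) (he2 : e ≤ 2 / 10) (hk1 : 0 ≤ k1)
    (ha : k1 ≤ a) (ha2 : a ≤ 15456 / 100000) (hc1 : 458 / 1000 ≤ c1) (hc : c1 ≤ c)
    (hc2 : c ≤ 4724 / 10000) :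
    (1 - c * a) * e * (q * (1 + e) * (1 - c * (1 - c * a - a)) + (1 - c * a) - 2 * a) ≤
      ((1 - c1 * k1) * (12 / 10 * q2 * (1 - c1 + c1 * k1 * (1 + c1)) + 1 - (c1 + 2) * k1)) * e := by
  have hQ : q * (1 + e) ≤ 12 / 10 * q2 := by
    have h1 : q * (1 + e) ≤ q2 * (12 / 10) :=
      mul_le_mul hq2 (by linarith) (by linarith) (hq.trans hq2)
    linarith
  have h1 := brk_le (Q := q * (1 + e)) (Q2 := 12 / 10 * q2) hQ
    (mul_nonneg hq (by linarith)) hk1 ha ha2 hc1 hc hc2 (by linarith)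
  obtain ⟨X, hX⟩ : ∃ X, X = q * (1 + e) * (1 - c * (1 - c * a - a)) + (1 - c * a) - 2 * a := ⟨_, rfl⟩
  obtain ⟨Y, hY⟩ : ∃ Y, Y = 12 / 10 * q2 * (1 - c1 + c1 * k1 * (1 + c1)) + 1 - (c1 + 2) * k1 :=
    ⟨_, rfl⟩
  rw [← hX, ← hY] at h1
  rw [← hX, ← hY]
  have ha0 : 0 ≤ a := hk1.trans ha
  have hc0 : 0 ≤ c := by linarith
  have hY0 : 0 ≤ Y := by
    rw [hY]
    have h2 : 0 ≤ 12 / 10 * q2 * (1 - c1 + c1 * k1 * (1 + c1)) := by
      refine mul_nonneg (by linarith) (add_nonneg (by linarith) ?_)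
      exact mul_nonneg (mul_nonneg (by linarith) hk1) (by linarith)
    have h3 : (c1 + 2) * k1 ≤ 3 * (2 / 10) :=
      mul_le_mul (by linarith) (by linarith) hk1 (by norm_num)
    linarith
  have hca : c1 * k1 ≤ c * a := mul_le_mul hc ha hk1 hc0
  have hca1 : c * a ≤ 1 * 1 := mul_le_mul (by linarith) (by linarith) ha0 (by norm_num)
  have h2 : (1 - c * a) * X ≤ (1 - c * a) * Y := mul_le_mul_of_nonneg_left h1 (by linarith)
  have h3 : (1 - c * a) * Y ≤ (1 - c1 * k1) * Y := mul_le_mul_of_nonneg_right (by linarith) hY0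
  have h4 : (1 - c * a) * X * e ≤ (1 - c1 * k1) * Y * e :=
    mul_le_mul_of_nonneg_right (h2.trans h3) he
  linarith

/-- lower bound for `e / q` -/
theorem e_ge {q e t q1 q2 t1 e1 A : ℝ} (h : (1 - q) * q * (t + e) ^ 2 ≤ A * e) (hq : 0 < q)
    (hq1 : 0 ≤ q1) (hqq1 : q1 ≤ q) (hqq2 : q ≤ q2) (hq2 : q2 < 1) (ht1 : 0 ≤ t1) (ht : t1 ≤ t)
    (he : 0 ≤ e) (hk1 : A * e1 < (1 - q2) * ((t1 + q1 * e1) * (t1 + q1 * e1)))
    (hk2 : 2 * (1 - q2) * q1 * (t1 + q1 * e1) ≤ A) : q * e1 ≤ e := by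
  by_contra hlt
  push Not at hlt
  obtain ⟨x, hx⟩ : ∃ x, x = e / q := ⟨_, rfl⟩
  have hex : e = q * x := by rw [hx]; field_simp
  have hx0 : 0 ≤ x := by rw [hx]; positivity
  have hxe : x < e1 := by
    rw [hex] at hlt
    exact lt_of_mul_lt_mul_left hlt hq.le
  have h1 : (1 - q) * (t + q * x) ^ 2 ≤ A * x := by
    rw [hex] at h
    have h2 : q * ((1 - q) * (t + q * x) ^ 2) ≤ q * (A * x) := by linarith
    exact le_of_mul_le_mul_left h2 hq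
  have h2 : (1 - q2) * (t1 + q1 * x) ^ 2 ≤ (1 - q) * (t + q * x) ^ 2 := by
    have h3 : q1 * x ≤ q * x := mul_le_mul_of_nonneg_right hqq1 hx0
    have h4 : 0 ≤ q1 * x := mul_nonneg hq1 hx0
    exact mul_le_mul (by linarith) (pow_le_pow_left₀ (by linarith) (by linarith) 2) (by positivity)
      (by linarith)
  have h3 : 0 ≤ (1 - q2) * (q1 * (x - e1)) ^ 2 := mul_nonneg (by linarith) (sq_nonneg _)
  have h4 : 0 ≤ (e1 - x) * (A - 2 * (1 - q2) * q1 * (t1 + q1 * e1)) :=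
    mul_nonneg (by linarith) (by linarith)
  nlinarith

/-- upper bound for `Dp` -/
theorem Dp_le {q t c e q1 q2 t2 e1 : ℝ} (hq : 0 < q) (hq1 : 0 ≤ q1) (hqq1 : q1 ≤ q)
    (hqq2 : q ≤ q2) (hq2 : q2 < 1) (ht0 : 0 ≤ t) (htt : t ≤ t2) (ht2 : t2 ≤ 1)
    (hc1 : cc q1 t2 ≤ c) (hc2 : c ≤ 4724 / 10000) (he1 : 0 ≤ e1) (he : q * e1 ≤ e) :
    Dp q t c e ≤ q * dd q1 q2 t2 e1 := by
  have hk : 0 ≤ q1 * (1 - t2) := mul_nonneg hq1 (by linarith)
  unfold dd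
  obtain ⟨c1, hc⟩ : ∃ c1, c1 = cc q1 t2 := ⟨_, rfl⟩
  rw [← hc] at hc1 ⊢
  have hc458 : 458 / 1000 ≤ c1 := by
    rw [hc]; unfold cc; linarith
  unfold Dp
  have hq20 : 0 ≤ q2 := hq.le.trans hqq2
  have s1 : (1 / 2 - c) * q * t ≤ q * ((1 / 2 - c1) * t2) := by
    have h1 : (1 / 2 - c) * t ≤ (1 / 2 - c1) * t2 :=
      mul_le_mul (by linarith) htt ht0 (by linarith)
    have h2 := mul_le_mul_of_nonneg_left h1 hq.le
    linarith
  have hs0 : 0 ≤ 1 - t2 := by linarith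
  have hs1 : 1 - t2 ≤ 1 - t := by linarith
  have hs2 : 1 - t ≤ 1 := by linarith
  have hs3 : 0 ≤ 1 - t := by linarith
  have p2 : (1 - t2) * (1 - t2) ≤ (1 - t) ^ 2 := by
    have := mul_le_mul hs1 hs1 hs0 hs3
    linarith [sq (1 - t)]
  have p3 : (1 - t2) * (1 - t2) * (1 - t2) ≤ (1 - t) ^ 3 := by
    have h1 := mul_le_mul p2 hs1 hs0 (by positivity)
    linarith [pow_succ (1 - t) 2]
  have p4 : (1 - t2) * (1 - t2) * (1 - t2) * (1 - t2) ≤ (1 - t) ^ 4 := by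
    have h1 := mul_le_mul p3 hs1 hs0 (by positivity)
    linarith [pow_succ (1 - t) 3]
  have u2 : (1 - t) ^ 2 ≤ 1 := pow_le_one₀ hs3 hs2
  have u3 : (1 - t) ^ 3 ≤ 1 := pow_le_one₀ hs3 hs2
  have u4 : (1 - t) ^ 4 ≤ 1 := pow_le_one₀ hs3 hs2
  have s2 : (1 / 3 - c / 2) * q ^ 2 * (1 - (1 - t) ^ 2) ≤
      q * ((1 / 3 - c1 / 2) * (q2 * (1 - (1 - t2) * (1 - t2)))) := by
    have h1 : q * (1 - (1 - t) ^ 2) ≤ q2 * (1 - (1 - t2) * (1 - t2)) :=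
      mul_le_mul hqq2 (by linarith) (by linarith) hq20
    have h2 : (1 / 3 - c / 2) * (q * (1 - (1 - t) ^ 2)) ≤
        (1 / 3 - c1 / 2) * (q2 * (1 - (1 - t2) * (1 - t2))) :=
      mul_le_mul (by linarith) h1 (mul_nonneg hq.le (by linarith)) (by linarith)
    have h3 := mul_le_mul_of_nonneg_left h2 hq.le
    linarith
  have s3 : (1 / 4 - c / 3) * q ^ 3 * (1 - (1 - t) ^ 3) ≤
      q * ((1 / 4 - c1 / 3) * (q2 * q2 * (1 - (1 - t2) * (1 - t2) * (1 - t2)))) := by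
    have h0 : q * q ≤ q2 * q2 := mul_le_mul hqq2 hqq2 hq.le hq20
    have h1 : q * q * (1 - (1 - t) ^ 3) ≤ q2 * q2 * (1 - (1 - t2) * (1 - t2) * (1 - t2)) :=
      mul_le_mul h0 (by linarith) (by linarith) (by positivity)
    have h2 : (1 / 4 - c / 3) * (q * q * (1 - (1 - t) ^ 3)) ≤
        (1 / 4 - c1 / 3) * (q2 * q2 * (1 - (1 - t2) * (1 - t2) * (1 - t2))) :=
      mul_le_mul (by linarith) h1 (mul_nonneg (by positivity) (by linarith)) (by linarith)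
    have h3 := mul_le_mul_of_nonneg_left h2 hq.le
    linarith
  have s4 : (1 / 5 - c / 4) * q ^ 4 * (1 - (1 - t) ^ 4) ≤
      q * ((1 / 5 - c1 / 4) * (q2 * q2 * q2 * (1 - (1 - t2) * (1 - t2) * (1 - t2) * (1 - t2)))) := by
    have h00 : q * q ≤ q2 * q2 := mul_le_mul hqq2 hqq2 hq.le hq20
    have h0 : q * q * q ≤ q2 * q2 * q2 := mul_le_mul h00 hqq2 hq.le (by positivity)
    have h1 : q * q * q * (1 - (1 - t) ^ 4) ≤
        q2 * q2 * q2 * (1 - (1 - t2) * (1 - t2) * (1 - t2) * (1 - t2)) :=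
      mul_le_mul h0 (by linarith) (by linarith) (by positivity)
    have h2 : (1 / 5 - c / 4) * (q * q * q * (1 - (1 - t) ^ 4)) ≤
        (1 / 5 - c1 / 4) * (q2 * q2 * q2 * (1 - (1 - t2) * (1 - t2) * (1 - t2) * (1 - t2))) :=
      mul_le_mul (by linarith) h1 (mul_nonneg (by positivity) (by linarith)) (by linarith)
    have h3 := mul_le_mul_of_nonneg_left h2 hq.le
    linarith
  have s5 : q ^ 5 / (6 * (1 - q)) ≤ q * (q2 * q2 * q2 * q2 / (6 * (1 - q2))) := by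
    have h00 : q * q ≤ q2 * q2 := mul_le_mul hqq2 hqq2 hq.le hq20
    have h0 : q * q * (q * q) ≤ q2 * q2 * (q2 * q2) := mul_le_mul h00 h00 (by positivity) (by positivity)
    have h1 : q * q * (q * q) / (6 * (1 - q)) ≤ q2 * q2 * (q2 * q2) / (6 * (1 - q2)) :=
      div_le_div₀ (by positivity) h0 (by linarith) (by linarith)
    have h3 := mul_le_mul_of_nonneg_left h1 hq.le
    have e1' : q ^ 5 / (6 * (1 - q)) = q * (q * q * (q * q) / (6 * (1 - q))) := by ring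
    have e2' : q2 * q2 * q2 * q2 / (6 * (1 - q2)) = q2 * q2 * (q2 * q2) / (6 * (1 - q2)) := by ring
    rw [e1', e2']
    exact h3
  have s6 : q * (c1 * e1 * q1 * (1 + q1 / 2)) ≤ c * e * q * (1 + q / 2) := by
    have h1 : q1 * e1 ≤ e := (mul_le_mul_of_nonneg_right hqq1 he1).trans he
    have h2 : c1 * (q1 * e1) ≤ c * e :=
      mul_le_mul hc1 h1 (mul_nonneg hq1 he1) (by linarith)
    have h4 : 0 ≤ c * e := le_trans (mul_nonneg (by linarith) (mul_nonneg hq1 he1)) h2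
    have h3 : c1 * (q1 * e1) * (1 + q1 / 2) ≤ c * e * (1 + q / 2) :=
      mul_le_mul h2 (by linarith) (by linarith) h4
    have h5 := mul_le_mul_of_nonneg_left h3 hq.le
    linarith
  linarith

/-- lower bound for `Gp` -/
theorem Gp_ge {q e q2 e1 : ℝ} (hq : 0 < q) (hqq2 : q ≤ q2) (hq2 : q2 ≤ 3 / 10) (he1 : 0 ≤ e1)
    (he : q * e1 ≤ e) : q * gg q2 e1 ≤ Gp q e := by
  have he0 : 0 ≤ e := le_trans (mul_nonneg hq.le he1) he
  unfold gg Gp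
  obtain ⟨d, hd⟩ : ∃ d, d = e1 / (36 / 10 * e1 + 1) := ⟨_, rfl⟩
  obtain ⟨D, hD⟩ : ∃ D, D = e / (36 / 10 * e + q) := ⟨_, rfl⟩
  obtain ⟨y, hy⟩ : ∃ y, y = 1 - 567 / 1000 * q2 := ⟨_, rfl⟩
  obtain ⟨Y, hY⟩ : ∃ Y, Y = 1 - 567 / 1000 * q := ⟨_, rfl⟩
  rw [← hd, ← hD, ← hy, ← hY]
  have hd0 : 0 ≤ d := by rw [hd]; positivity
  have hD0 : 0 ≤ D := by rw [hD]; positivity
  have hd1 : d ≤ 28 / 100 := by
    rw [hd, div_le_iff₀ (by positivity)]
    linarith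
  have hD1 : D ≤ 28 / 100 := by
    rw [hD, div_le_iff₀ (by positivity)]
    linarith
  have hdD : d ≤ D := by
    rw [hd, hD, div_le_div_iff₀ (by positivity) (by positivity)]
    linarith
  have hy0 : 829 / 1000 ≤ y := by rw [hy]; linarith
  have hyY : y ≤ Y := by rw [hy, hY]; linarith
  have hy1 : y ≤ 1 := by rw [hy]; linarith
  -- the last factor
  have h1 : d * (y * (1 - 4 / 10 * d) - q2) ≤ D * (y * (1 - 4 / 10 * D) - q2) := by
    have h2 : 0 ≤ (D - d) * (y - q2 - 4 / 10 * (y * (D + d))) := by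
      refine mul_nonneg (by linarith) ?_
      have h3 : y * (D + d) ≤ 1 * (56 / 100) :=
        mul_le_mul hy1 (by linarith) (by linarith) (by norm_num)
      linarith
    nlinarith
  have h2 : D * (y * (1 - 4 / 10 * D) - q2) ≤ D * (Y * (1 - 4 / 10 * D) - q) := by
    refine mul_le_mul_of_nonneg_left ?_ hD0
    have h3 : y * (1 - 4 / 10 * D) ≤ Y * (1 - 4 / 10 * D) :=
      mul_le_mul_of_nonneg_right hyY (by linarith)
    linarith
  have h3 : 0 ≤ d * (y * (1 - 4 / 10 * d) - q2) := by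
    refine mul_nonneg hd0 ?_
    have h4 : 829 / 1000 * (8 / 10) ≤ y * (1 - 4 / 10 * d) :=
      mul_le_mul hy0 (by linarith) (by norm_num) (by linarith)
    linarith
  have h4 : (1 - q2) * y ≤ (1 - q) * Y := mul_le_mul (by linarith) hyY (by linarith) (by linarith)
  have h40 : 0 ≤ (1 - q2) * y := mul_nonneg (by linarith) (by linarith)
  have h5 : (1 - q2) * y * (q * e1) ≤ (1 - q) * Y * e :=
    mul_le_mul h4 he (mul_nonneg hq.le he1) (h40.trans h4)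
  have h6 : (1 - q2) * y * (q * e1) * (d * (y * (1 - 4 / 10 * d) - q2)) ≤
      (1 - q) * Y * e * (D * (Y * (1 - 4 / 10 * D) - q)) :=
    mul_le_mul h5 (h1.trans h2) h3 ((mul_nonneg h40 (mul_nonneg hq.le he1)).trans h5)
  calc q * ((1 - q2) * y * e1 * d / 2 * (y * (1 - 4 / 10 * d) - q2))
      = (1 - q2) * y * (q * e1) * (d * (y * (1 - 4 / 10 * d) - q2)) / 2 := by ring
    _ ≤ (1 - q) * Y * e * (D * (Y * (1 - 4 / 10 * D) - q)) / 2 := by linarith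
    _ = (1 - q) * Y * e * D / 2 * (Y * (1 - 4 / 10 * D) - q) := by ring

/-- in case (i) of a box: the lower bound of `e / q` -/
theorem case_i {q t c e q1 q2 t1 t2 e1 : ℝ} (hq : 0 < q) (hq1 : 0 ≤ q1) (hqq1 : q1 ≤ q)
    (hqq2 : q ≤ q2) (hq2 : q2 ≤ 37 / 100) (ht10 : 0 ≤ t1) (ht1 : t1 ≤ t) (htt : t ≤ t2)
    (ht2 : t2 ≤ 1) (ha2 : q * (1 - t) ≤ 15456 / 100000)
    (hc1 : 458 / 1000 + 88 / 1000 * (q * (1 - t)) ≤ c) (hc2 : c ≤ 4724 / 10000) (he0 : 0 ≤ e)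
    (he2 : e ≤ 2 / 10)
    (h : (1 - q) * q * (t + e) ^ 2 ≤ (1 - c * (q * (1 - t))) * e *
      (q * (1 + e) * (1 - c * (1 - c * (q * (1 - t)) - q * (1 - t))) + (1 - c * (q * (1 - t))) -
        2 * (q * (1 - t))))
    (hk1 : aa q1 q2 t2 * e1 < (1 - q2) * ((t1 + q1 * e1) * (t1 + q1 * e1)))
    (hk2 : 2 * (1 - q2) * q1 * (t1 + q1 * e1) ≤ aa q1 q2 t2) : q * e1 ≤ e := by
  have hk : 0 ≤ q1 * (1 - t2) := mul_nonneg hq1 (by linarith)
  have hka : q1 * (1 - t2) ≤ q * (1 - t) := mul_le_mul hqq1 (by linarith) (by linarith) hq.le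
  refine e_ge (A := aa q1 q2 t2) (h.trans ?_) hq hq1 hqq1 hqq2 (by linarith) ht10 ht1 he0 hk1 hk2
  have h1 := prod_le (c1 := cc q1 t2) (k1 := q1 * (1 - t2)) hq.le hqq2 hq2 he0 he2 hk hka ha2
    (by unfold cc; linarith) (by unfold cc; linarith) hc2
  exact h1

/-- test that `e1` is a lower bound -/
def okE (q1 q2 t1 t2 e1 : ℚ) : Bool :=
  decide (aa q1 q2 t2 * e1 < (1 - q2) * ((t1 + q1 * e1) * (t1 + q1 * e1))) &&
    decide (2 * (1 - q2) * q1 * (t1 + q1 * e1) ≤ aa q1 q2 t2)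

theorem okE_real {q1 q2 t1 t2 e1 : ℚ} (h : okE q1 q2 t1 t2 e1 = true) :
    aa (q1 : ℝ) q2 t2 * e1 < (1 - q2) * ((t1 + q1 * e1) * (t1 + q1 * e1)) ∧
      2 * (1 - q2) * q1 * (t1 + q1 * e1) ≤ aa (q1 : ℝ) q2 t2 := by
  unfold okE at h
  rw [Bool.and_eq_true, decide_eq_true_eq, decide_eq_true_eq] at h
  obtain ⟨h1, h2⟩ := h
  rw [← cast_aa]
  constructor
  · exact_mod_cast h1
  · exact_mod_cast h2

end Pool.Agent.Q154.EM
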